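import Mathlib

/-!
# QEP: quasi-isometric embeddings of real hyperbolic space `H^(k+2)` in
`CH^(k+1) × R^(2k)` (MP_dc0713_gt)

The Peano curve on the natural numbers (base 3 digits), its Levy area, digit sums.
-/

namespace Pool.Agent.QEP

open scoped ComplexConjugate

/-- Sign of the horizontal direction of travel of the Peano curve in its `i`-th square:
`(-1)` to the sum of the base-3 digits of `i` in even positions. -/
def sx (i : ℕ) : ℤ :=
  if h : i = 0 then 1 else sx (i / 9) * (-1) ^ (i % 3)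
termination_by i
decreasing_by exact Nat.div_lt_self (Nat.pos_of_ne_zero h) (by norm_num)

/-- Sign of the vertical direction of travel of the Peano curve in its `i`-th square:
`(-1)` to the sum of the base-3 digits of `i` in odd positions. -/
def sy (i : ℕ) : ℤ :=
  if h : i = 0 then 1 else sy (i / 9) * (-1) ^ (i % 9 / 3)
termination_by i
decreasing_by exact Nat.div_lt_self (Nat.pos_of_ne_zero h) (by norm_num)

/-- The Peano curve visits the lattice points `(cx i, cy i)`; each step is diagonal. -/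
def cx (i : ℕ) : ℤ := ∑ j ∈ Finset.range i, sx j

/-- See `cx`. -/
def cy (i : ℕ) : ℤ := ∑ j ∈ Finset.range i, sy j

/-- Twice the area swept by the polygonal curve `(cx, cy)`, seen from the origin. -/
def tt (i : ℕ) : ℤ := ∑ j ∈ Finset.range i, (cx j * sy j - cy j * sx j)

/-- The area defect (Levy area) between the times `i` and `j`. -/
def BB (i j : ℕ) : ℤ := tt j - tt i - (cx i * cy j - cy i * cx j)

/-- The `i`-th square of the curve is `[X i, X i + 1] x [Y i, Y i + 1]`. -/
def X (i : ℕ) : ℤ := cx i + (sx i - 1) / 2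

/-- See `X`. -/
def Y (i : ℕ) : ℤ := cy i + (sy i - 1) / 2

/-- Truncated distance, in units of `9 ^ k`, to the set of times at which the square of
level `k` has last digit `0`, minus the same for last digit `2`. Here `P = X` or `P = Y`. -/
noncomputable def vv (P : ℕ → ℤ) (k i : ℕ) : ℝ :=
  (min (Metric.infDist i {j : ℕ | P (j / 9 ^ k) % 3 = 0}) (9 ^ k)
    - min (Metric.infDist i {j : ℕ | P (j / 9 ^ k) % 3 = 2}) (9 ^ k)) / 9 ^ k

/-- Sum of the `vv` over the levels `l ≤ k < K`. -/
noncomputable def gg (P : ℕ → ℤ) (K l i : ℕ) : ℝ := ∑ k ∈ Finset.Ico l K, vv P k i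

/-- Upper half space of dimension `m + 1`: the points `(x, r)`, `x ∈ R^m`, `r > 0`
(real hyperbolic space `H^(m+1)`). -/
def HReal (m : ℕ) : Type := {p : EuclideanSpace ℝ (Fin m) × ℝ // 0 < p.2}

/-- The hyperbolic distance of the upper half space (curvature `-1`). -/
noncomputable def dReal {m : ℕ} (p q : HReal m) : ℝ :=
  Real.arcosh (1 + (‖p.1.1 - q.1.1‖ ^ 2 + (p.1.2 - q.1.2) ^ 2) / (2 * p.1.2 * q.1.2))

/-- The Siegel domain of complex dimension `k + 1`: the points `(z, w)`, `z ∈ C^k`, `w ∈ C`,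
with `|z|^2 < Im w` (complex hyperbolic space `CH^(k+1)`). -/
def HComplex (k : ℕ) : Type := {p : EuclideanSpace ℂ (Fin k) × ℂ // ‖p.1‖ ^ 2 < p.2.im}

/-- The Hermitian form of signature `(k + 1, 1)` on the lifts `(z, w, 1)`, `(z', w', 1)` of two
points: `<z, z'> + (i / 2) (w - conj w')`; it is `|z|^2 - Im w < 0` on the diagonal. -/
noncomputable def herm {k : ℕ} (p q : EuclideanSpace ℂ (Fin k) × ℂ) : ℂ :=
  (∑ i, p.1 i * conj (q.1 i)) + Complex.I / 2 * (p.2 - conj q.2)

/-- The complex hyperbolic distance (holomorphic sectional curvature `-1`):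
`cosh^2 (d / 2) = |<p, q>|^2 / (<p, p> <q, q>)`. -/
noncomputable def dComplex {k : ℕ} (p q : HComplex k) : ℝ :=
  2 * Real.arcosh (‖herm p.1 q.1‖ / Real.sqrt (‖herm p.1 p.1‖ * ‖herm q.1 q.1‖))

/-- The distance of the Riemannian product of `CH^(k+1)` and a Euclidean space `E`. -/
noncomputable def dProd {k : ℕ} {E : Type*} [SeminormedAddCommGroup E]
    (p q : HComplex k × E) : ℝ :=
  Real.sqrt (dComplex p.1 q.1 ^ 2 + ‖p.2 - q.2‖ ^ 2)

/-- The point of the Siegel domain with horospherical coordinates `(z, t, r)`: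
`w = t + i (|z|^2 + r)`. -/
noncomputable def siegel {k : ℕ} (z : EuclideanSpace ℂ (Fin k)) (t : ℝ) (r : ℝ) :
    EuclideanSpace ℂ (Fin k) × ℂ :=
  (z, ⟨t, ‖z‖ ^ 2 + r⟩)

end Pool.Agent.QEP
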