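import Pool.Agent.QEP.Defs

/-!
# QEP, statements of the rows (complete proofs in the docstrings)

Notation: `i = 9 q + d`, `d = 3 b + a`, `a, b ∈ {0, 1, 2}`.
-/

namespace Pool.Agent.QEP

open scoped ComplexConjugate

/-- SGN (60 lines). Unfold `sx`, `sy` (strong induction on `i`; for `i = 0` the recursion
formula is trivial). Product: `sx i * sy i = sx q sy q (-1)^(a + b)`, `(-1)^(9 q + 3 b + a)`,
and `9 q + 3 b + a - (q + a + b)` is even. -/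
def SGNStmt : Prop :=
  (∀ i, sx i = 1 ∨ sx i = -1) ∧ (∀ i, sy i = 1 ∨ sy i = -1) ∧
  (∀ i, sx i = sx (i / 9) * (-1) ^ (i % 3)) ∧
  (∀ i, sy i = sy (i / 9) * (-1) ^ (i % 9 / 3)) ∧
  (∀ i, sx i * sy i = (-1) ^ i)

/-- COR (80 lines), uses SGN. `cx (9 q) = 3 cx q` by induction on `q`
(`Finset.sum_range_succ` nine times, `sx (9 q + e) = sx q (-1)^(e % 3)`, total `3 sx q`), then
add the first `d` steps of the block `q`. The same for `cy` with `(-1)^(e / 3)`. -/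
def CORStmt : Prop :=
  (∀ q d, d ≤ 9 → cx (9 * q + d) = 3 * cx q + sx q * ∑ e ∈ Finset.range d, (-1 : ℤ) ^ (e % 3)) ∧
  (∀ q d, d ≤ 9 → cy (9 * q + d) = 3 * cy q + sy q * ∑ e ∈ Finset.range d, (-1 : ℤ) ^ (e / 3))

/-- DIG (80 lines), uses SGN COR. Write `i = 9 q + d` and check the nine values of `d` and the
signs of `sx q`, `sy q`:
`X (9 q + d) = cx (9 q + d) + (sx (9 q + d) - 1) / 2`, `cx q = X q - (sx q - 1) / 2`. -/
def DIGStmt : Prop :=
  (∀ i, X i = 3 * X (i / 9) +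
    (if sx (i / 9) = 1 then ((i % 9 / 3 : ℕ) : ℤ) else 2 - ((i % 9 / 3 : ℕ) : ℤ))) ∧
  (∀ i, Y i = 3 * Y (i / 9) +
    (if sy (i / 9) * (-1) ^ (i % 9 / 3) = 1 then ((i % 3 : ℕ) : ℤ) else 2 - ((i % 3 : ℕ) : ℤ)))

/-- LEV (40 lines), uses DIG. By DIG, `X i = 3 X (i/9) + digit` with digit `0, 1, 2`, hence
`X (i / 9) = X i / 3` (Euclidean division); induction on `k` (`Nat.div_div_eq_div_mul`).
Nonnegativity by strong induction (`X 0 = 0`). -/
def LEVStmt : Prop :=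
  (∀ k i, X (i / 9 ^ k) = X i / 3 ^ k) ∧ (∀ k i, Y (i / 9 ^ k) = Y i / 3 ^ k) ∧
  (∀ i, 0 ≤ X i) ∧ (∀ i, 0 ≤ Y i)

/-- ADJ (40 lines), uses SGN. `X (i+1) - X i = sx i + (sx (i+1) - sx i) / 2`, which is `0` if the
sign changes and `± 1` if it does not, the same for `Y`; and by
`sx (i+1) sy (i+1) = - sx i sy i` exactly one of the two signs changes. -/
def ADJStmt : Prop :=
  ∀ i, (X (i + 1) = X i ∧ (Y (i + 1) = Y i + 1 ∨ Y (i + 1) = Y i - 1)) ∨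
    (Y (i + 1) = Y i ∧ (X (i + 1) = X i + 1 ∨ X (i + 1) = X i - 1))

/-- INJ (50 lines), uses DIG. Strong induction on `i + j` (or: for `i, j < 9 ^ k`, induction on
`k`): by DIG, `X (i/9) = X (j/9)` and `Y (i/9) = Y (j/9)` (the digits are in `{0,1,2}`), hence
`i / 9 = j / 9`, then the digits of `X` give the same `b`, the digits of `Y` the same `a`. -/
def INJStmt : Prop := ∀ i j, X i = X j → Y i = Y j → i = j

/-- BLK (120 lines), uses SGN COR. Block bounds. (1) `cx (9^k q + e) - 3^k cx q` is bounded by `3^k`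
for `e ≤ 9^k`: induction on `k`; `9^(k+1) q + e`, `e ≤ 9^(k+1)`: write `e = 9^k d + e'` with
`d ≤ 8`, `e' ≤ 9^k`; better: prove the two sided statement
`cx (9^k q + e)` lies between `3^k min (cx q) (cx (q+1))` and `3^k max (cx q) (cx (q+1))`
(for `k + 1` use it for the sub-block `9 q + d` and the partial sums `0 1 0 1 2 1 2 3 2 3` of COR,
which lie in `[0, 3]`). (2) `tt (9 q) = 9 tt q`: by induction on `q`, the increment over one block
is `9 (cx q sy q - cy q sx q)`, because the double sum over `e < d` of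
`dx e * dy d - dy e * dx d` (`dx e = (-1)^(e%3)`, `dy e = (-1)^(e/3)`) is `0`.
(3) `BB (9^k q) (9^k q + e)` is bounded by `4 * 9^k` for `e ≤ 9^k`: with
`BB i n = BB i j + BB j n + ((cx j - cx i)(cy n - cy j) - (cy j - cy i)(cx n - cx j))` (`ring`),
`BB (9 p) (9 q) = 9 BB p q`, hence `BB (9^k (9 q)) (9^k (9 q + d)) = 9^k BB (9 q) (9 q + d)`, and
`|BB (9 q) (9 q + d)| ≤ 24` for `d ≤ 9` (it is `sx q sy q` times a number computed by `decide`;
it does not depend on `cx q, cy q`), induction on `k`: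
`24 * 9^k + 4 * 9^k + 2 * 3^(k+1) * 3^k ≤ 4 * 9^(k+1)`, i.e. `34 ≤ 36`. -/
def BLKStmt : Prop :=
  (∀ k q e, e ≤ 9 ^ k → |cx (9 ^ k * q + e) - 3 ^ k * cx q| ≤ 3 ^ k) ∧
  (∀ k q e, e ≤ 9 ^ k → |cy (9 ^ k * q + e) - 3 ^ k * cy q| ≤ 3 ^ k) ∧
  (∀ k q e, e ≤ 9 ^ k → |BB (9 ^ k * q) (9 ^ k * q + e)| ≤ 4 * 9 ^ k) ∧
  (∀ k q e, e ≤ 9 ^ k → |cx (9 ^ k * q + e) - 3 ^ k * cx (q + 1)| ≤ 3 ^ k) ∧
  (∀ k q e, e ≤ 9 ^ k → |cy (9 ^ k * q + e) - 3 ^ k * cy (q + 1)| ≤ 3 ^ k)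

/-- HOL (80 lines), uses COR BLK (and `cx (9^k q) = 3^k cx q`). Let `i ≤ j ≤ i + 9^k`,
`q = i / 9^k`. Either `j / 9^k = q` or `j / 9^k = q + 1` (`j ≤ 9^k (q + 2)`, the case of equality is
harmless: then `i = 9^k (q+1)`, take `q + 1`). First case: compare with `9^k q`; second case: compare
with `s = 9^k (q + 1)`, an end point of both blocks. For `BB`: Chen's relation
`BB i n = BB i j + BB j n + ((cx j - cx i)(cy n - cy j) - (cy j - cy i)(cx n - cx j))` (`ring`) and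
`BB i j = - BB j i`, `BB (9^k q) (9^k (q+1)) = 0` or simply `≤ 4 * 9^k`. Everything is symmetric in
`i, j`. (True constants: 2 and 1.83.) -/
def HOLStmt : Prop :=
  ∀ (k i j : ℕ), |(i : ℤ) - j| ≤ 9 ^ k →
    |cx i - cx j| ≤ 2 * 3 ^ k ∧ |cy i - cy j| ≤ 2 * 3 ^ k ∧ |BB i j| ≤ 30 * 9 ^ k

/-- VLI (50 lines), no hypotheses. `Metric.infDist` is 1-Lipschitz, so are the truncations; both
truncated distances are in `[0, 9^k]`. `vv P k i = 0 + nonneg` if `i` is in the set of digit `2`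
(its distance is `0`), and so on. -/
def VLIStmt : Prop :=
  (∀ P k i, |vv P k i| ≤ 1) ∧
  (∀ P k i j, |vv P k i - vv P k j| ≤ 2 * |(i : ℝ) - j| / 9 ^ k) ∧
  (∀ P k i, P (i / 9 ^ k) % 3 = 2 →
    vv P k i = min (Metric.infDist i {j : ℕ | P (j / 9 ^ k) % 3 = 0}) (9 ^ k) / 9 ^ k) ∧
  (∀ P k i, P (i / 9 ^ k) % 3 = 0 →
    vv P k i = - (min (Metric.infDist i {j : ℕ | P (j / 9 ^ k) % 3 = 2}) (9 ^ k) / 9 ^ k))

/-- GLI (50 lines), uses VLI. Each term is at most `1`; for the second statement the terms with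
`k < n` differ by at most `2` each, those with `k ≥ n` by at most `2 * 9^n / 9^k`, geometric sum
`≤ 9/4`. -/
def GLIStmt : Prop :=
  (∀ P K l l' (i : ℕ), l ≤ l' → l' ≤ K → |gg P K l i - gg P K l' i| ≤ (l' : ℝ) - l) ∧
  (∀ P K l n (i j : ℕ), l ≤ n → |(i : ℝ) - j| ≤ 9 ^ n → |gg P K l i - gg P K l j| ≤ 2 * ((n : ℝ) - l) + 3)

/-- CRX (120 lines), uses DIG LEV ADJ INJ. The heart: crossings of a vertical line between two
columns of one block. `I ≠ J` in the same block `p = I/9 = J/9`, `X J = X I + 1`.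
If `I'` is a neighbour of `I` in time with `X I' = X I + 1` and `J'` is a neighbour of `J` in time
with `X J' = X J - 1`, then `I' = J`. Proof: by ADJ `Y I' = Y I`, so `X (I'/9) = X I' / 3 = X J / 3 =
X p`, `Y (I'/9) = Y I / 3 = Y p`, INJ: `I' / 9 = p`; the same for `J'`. By DIG the columns
`b = (I % 9) / 3` of `I` and `J'` are equal, and those of `I'` and `J` are equal, and different
from the first. `I, I'` are consecutive with different `b`, so `{I % 9, I' % 9} = {3 u - 1, 3 u}`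
with `u = max` of the two columns, the same for `J, J'`: hence `I' % 9 = J % 9` (`omega`). -/
def CRXStmt : Prop :=
  ∀ I J I' J' : ℕ, I / 9 = J / 9 → X J = X I + 1 →
    (I' = I + 1 ∨ I = I' + 1) → X I' = X I + 1 →
    (J' = J + 1 ∨ J = J' + 1) → X J' = X J - 1 → I' = J

/-- CRY (30 lines), uses ADJ INJ. Same column: `X I = X J`, `Y J = Y I + 1`, `I'` a neighbour in time
of `I` with `Y I' = Y I + 1`. By ADJ `X I' = X I = X J`, `Y I' = Y J`, INJ. -/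
def CRYStmt : Prop :=
  ∀ I J I' : ℕ, X J = X I → Y J = Y I + 1 →
    (I' = I + 1 ∨ I = I' + 1) → Y I' = Y I + 1 → I' = J

/-- TRA (120 lines), no hypotheses except those stated: transfer to scale `9^k`.
`P : ℕ → ℤ` with `P (i / 9^k) = P i / 3^k` for all `i, k` and `|P (i+1) - P i| ≤ 1`. Let
`k' > k`, `I = i / 9^k'`, and suppose that `i` is adjacent to the line `L` from below at level
`k`: `P (i / 9^k) = 3^(k'-k) L - 1`. If `infDist i {j | P (j / 9^k) % 3 = 0} < 9^k / 2` then there is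
`i'` with `|i - i'| < 9^k / 2` and `P (i' / 9^k) % 3 = 0`; the quotients `i / 9^k`, `i' / 9^k` differ
by at most one, are different (`P` of the first is `-1` mod 3), so
`P (i' / 9^k) = P (i / 9^k) + 1 = 3^(k'-k) L`; hence `I' = i' / 9^k'` has `P I' = L`, while
`P I = L - 1`, and `I'` is a neighbour in time of `I`. The boundary point of the two blocks of
level `k'`, namely `9^k' * max I I'`, lies between `i` and `i'`. The set is nonempty because it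
contains points close to `i` (otherwise `infDist = 0` of the empty set: the hypothesis
`h0 : P 0 = 0` gives the point `0`). The second half is the mirror image (digit 2 above). -/
def TRAStmt : Prop :=
  ∀ P : ℕ → ℤ, (∀ k i, P (i / 9 ^ k) = P i / 3 ^ k) → (∀ i, |P (i + 1) - P i| ≤ 1) → P 0 = 0 →
  (∀ k k' i L, k < k' → P (i / 9 ^ k) = 3 ^ (k' - k) * L - 1 →
    Metric.infDist i {j : ℕ | P (j / 9 ^ k) % 3 = 0} < 9 ^ k / 2 →
    ∃ I' : ℕ, (I' = i / 9 ^ k' + 1 ∨ i / 9 ^ k' = I' + 1) ∧ P I' = L ∧ P (i / 9 ^ k') = L - 1 ∧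
      |(i : ℝ) - 9 ^ k' * ((max (i / 9 ^ k') I' : ℕ) : ℝ)| < 9 ^ k / 2) ∧
  (∀ k k' j L, k < k' → P (j / 9 ^ k) = 3 ^ (k' - k) * L →
    (∃ n : ℕ, P (n / 9 ^ k) % 3 = 2) →
    Metric.infDist j {j : ℕ | P (j / 9 ^ k) % 3 = 2} < 9 ^ k / 2 →
    ∃ J' : ℕ, (J' = j / 9 ^ k' + 1 ∨ j / 9 ^ k' = J' + 1) ∧ P J' = L - 1 ∧ P (j / 9 ^ k') = L ∧
      |(j : ℝ) - 9 ^ k' * ((max (j / 9 ^ k') J' : ℕ) : ℝ)| < 9 ^ k / 2)

/-- SEP (200 lines), uses LEV ADJ VLI CRX CRY TRA. Let `i ≠ j` with `9^m ≤ |i - j|`. Let `k'` be the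
largest level with `I = i / 9^k' ≠ J = j / 9^k'`; then `I / 9 = J / 9`, `k' < K` and `m ≤ k'`
(`|i - j| < 9^(k'+1)`). If `m ≤ l` nothing is to be shown (`30 ≥ 0`), so `l < m ≤ k'`.
CASE 1: `X I ≠ X J`, say `X I < X J` (symmetry). `X I = X i / 3^k'`, `X J = X j / 3^k'` and
`X j - X i ≤ 3^l` give `X J = X I + 1 =: L`, and for `l ≤ k < k'`:
`3^k' L - 3^l ≤ X i < 3^k' L ≤ X j < 3^k' L + 3^l`, so `X (i / 9^k) = 3^(k'-k) L - 1` (`% 3 = 2`)
and `X (j / 9^k) = 3^(k'-k) L` (`% 3 = 0`). VLI: `vv X k i ≥ 0 ≥ vv X k j`. For `l ≤ k < m` one of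
them is at least `1/2` in absolute value: otherwise TRA (twice) gives neighbours `I', J'` of `I, J`
in time with `X I' = L`, `X J' = L - 1`, CRX: `I' = J`, so `max I I' = max J J'` (the neighbours
`J' , J` : by CRX applied symmetrically, or: `J' ` and `I` are both neighbours of `J` with `X = L-1`;
use CRX with the roles exchanged, i.e. `J' = I`) and `|i - j| < 9^k ≤ 9^m`, a contradiction.
So the sum over `l ≤ k < k'` of `vv X k i - vv X k j` is at least `(m - l) / 2`; the term `k'` is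
at least `-2`; the terms `k > k'` are at most `2 |i - j| / 9^k ≤ 2 * 9^(k'+1) / 9^k` in absolute
value, total `≤ 9/4`. Hence `|gg X K l i - gg X K l j| ≥ (m - l)/2 - 17/4`.
CASE 2: `X I = X J`, `Y I ≠ Y J`: the same with `Y` and CRY. (INJ not needed: if both were equal use
INJ, or take it as a hypothesis.) True constant: `0.84` instead of `30`. -/
def SEPStmt : Prop :=
  ∀ K l m i j : ℕ, i / 9 ^ K = j / 9 ^ K → (9 : ℤ) ^ m ≤ |(i : ℤ) - j| →
    |X i - X j| ≤ 3 ^ l → |Y i - Y j| ≤ 3 ^ l →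
    (m : ℝ) - l ≤ 2 * max |gg X K l i - gg X K l j| |gg Y K l i - gg Y K l j| + 30

/-- The one dimensional theorem on a large region, with a constant independent of the region. -/
def REGStmt : Prop :=
  ∃ C : ℝ, 1 ≤ C ∧ ∀ M : ℕ, ∃ (h : ℝ → ℂ) (T : ℝ → ℝ) (g : ℝ → ℝ → ℂ),
    h 0 = 0 ∧ T 0 = 0 ∧ g 0 1 = 0 ∧
    ∀ s s' r r' : ℝ, |s| ≤ 9 ^ M → |s'| ≤ 9 ^ M → (9 ^ M)⁻¹ ≤ r → r ≤ 9 ^ M →
      (9 ^ M)⁻¹ ≤ r' → r' ≤ 9 ^ M →
      ‖h s - h s'‖ ^ 2 ≤ C * (|s - s'| + r) ∧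
      |T s - T s' + 2 * (h s * conj (h s')).im| ≤ C * (|s - s'| + r) ∧
      ‖g s r - g s' r'‖ ≤ C * (1 + |Real.log (r / r')| + Real.log (1 + |s - s'| / r)) ∧
      (‖h s - h s'‖ ^ 2 ≤ r → |s - s'| ≤ C * r * Real.exp (C * ‖g s r - g s' r‖))

/-- REG (200 lines), uses COR (`cx`), HOL GLI SEP. Put `n0 = 9^(2M+1)`, `K = 2M+6`,
`i s = floor (9^M s + n0)` (a natural number, `≤ 9^(2M+2)`), `c i = cx i + i cy i` (complex),
`h s = 3^(-M) (c (i s) - c n0)`, `T s = -2 * 9^(-M) (BB n0 (i s))`,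
`l r = floor (log_9 (9^M r))` (`Nat.log 9 (floor (9^M r))`), so `9^(l r) ≤ 9^M r < 9^(l r + 1)`,
`g s r = (gg X K (l r) (i s) - gg X K M n0) + I (gg Y K (l r) (i s) - gg Y K M n0)`.
Note `|i s - i s'| ≤ 9^M |s - s'| + 1 ≤ 9^M (|s - s'| + r)`, choose `k` minimal with
`|i s - i s'| ≤ 9^k` and use HOL. `BB n0 i - BB n0 j - ...`: with the normalised points
`c' i = c i - c n0`, the identity
`BB n0 j - BB n0 i - (cx' i cy' j - cy' i cx' j) = BB i j` (`ring`), and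
`2 Im (z conj z') = 2 (y x' - x y')`, so that `T s - T s' + 2 Im (..) = 2 * 9^(-M) BB (i s) (i s')`.
For `g`: GLI with `n` minimal with `|i s - i s'| ≤ 9^n`, `n ≥ l`, and `|l r - l r'| ≤
1 + |log_9 (r / r')|`. Last item: `‖h s - h s'‖^2 ≤ r` gives
`|cx i - cx j|, |cy i - cy j| ≤ 3^(l+1)`, so `|X i - X j| ≤ 3^(l+1) + 1 ≤ 3^(l+2)`; if
`|s - s'| ≤ 2 r` nothing is to be shown, otherwise `|i - j| ≥ 9^M |s - s'| - 1 ≥ 9^M |s - s'| / 2`
(and `>0`), `m` maximal with `9^m ≤ |i - j|`; SEP at level `l + 2` and GLI (first part):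
`m - l ≤ 2 + 30 + 2 (|Delta g| + 4)`, and `9^M |s - s'| ≤ 2 * 9^(m+1)`, `9^l ≤ 9^M r`. -/
def REGRow : Prop := REGStmt

/-- The global one dimensional theorem. -/
def GLOStmt : Prop :=
  ∃ (C : ℝ) (h : ℝ → ℂ) (T : ℝ → ℝ) (g : ℝ → ℝ → ℂ), 1 ≤ C ∧
    ∀ s s' r r' : ℝ, 0 < r → 0 < r' →
      ‖h s - h s'‖ ^ 2 ≤ C * |s - s'| ∧
      |T s - T s' + 2 * (h s * conj (h s')).im| ≤ C * |s - s'| ∧
      ‖g s r - g s' r'‖ ≤ C * (1 + |Real.log (r / r')| + Real.log (1 + |s - s'| / r)) ∧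
      (‖h s - h s'‖ ^ 2 < r → |s - s'| ≤ C * r * Real.exp (C * ‖g s r - g s' r‖))

/-- GLO (120 lines): `REGStmt → GLOStmt`. Choose `h_M, T_M, g_M` (`choose`). For fixed `s`
the sequence `h_M s` is bounded for large `M`
(`‖h_M s‖^2 = ‖h_M s - h_M 0‖^2 ≤ C (|s| + 1)`), the same for `T_M s` (use `h_M 0 = 0`) and
`g_M s r` (`≤ C (1 + |log r| + log (1 + |s| / r))`, use `s' = 0`, `r' = 1`). Take the limits along the
ultrafilter `Filter.hyperfilter ℕ` (a bounded sequence in a proper space converges along an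
ultrafilter: `IsCompact.ultrafilter_le_nhds` applied to the image ultrafilter and a closed ball), pass
to the limit in the inequalities (`le_of_tendsto`, eventually `|s|, |s'| ≤ 9^M`, ...). In the first
two inequalities let `r → 0` at the end. In the last one the strict hypothesis in the limit gives
`‖h_M s - h_M s'‖^2 ≤ r` eventually. -/
def GLORow : Prop := REGStmt → GLOStmt

/-- ARC (40 lines), no hypotheses. `exp (arcosh u) = u + sqrt (u^2 - 1)` is between `u` and `2 u`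
(`Real.exp_arcosh`). -/
def ARCStmt : Prop :=
  ∀ u : ℝ, 1 ≤ u → Real.log u ≤ Real.arcosh u ∧ Real.arcosh u ≤ Real.log (2 * u)

/-- DRE (60 lines), uses ARC. `1 + (D + (r - r')^2) / (2 r r') = (D + r^2 + r'^2) / (2 r r')`. -/
def DREStmt : Prop :=
  ∀ (m : ℕ) (p q : HReal m),
    Real.log ((‖p.1.1 - q.1.1‖ ^ 2 + p.1.2 ^ 2 + q.1.2 ^ 2) / (2 * (p.1.2 * q.1.2))) ≤ dReal p q ∧
    dReal p q ≤ Real.log ((‖p.1.1 - q.1.1‖ ^ 2 + p.1.2 ^ 2 + q.1.2 ^ 2) / (p.1.2 * q.1.2)) ∧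
    0 ≤ dReal p q

/-- DCO (120 lines), uses ARC. With `P = siegel z t r`, `Q = siegel z' t' r'`:
`herm P Q = -(‖z - z'‖^2 + r + r') / 2 + i ((t - t') / 2 + Im <z, z'>)`, where
`<z, z'> = sum z_i conj z'_i`; `‖herm P P‖ = r`. So the argument of `arcosh` is
`sqrt (N / (4 r r'))`, `N = (‖z - z'‖^2 + r + r')^2 + (t - t' + 2 Im <z, z'>)^2 ≥ 4 r r'`, and
`2 log sqrt x = log x`. -/
def DCOStmt : Prop :=
  ∀ (k : ℕ) (z z' : EuclideanSpace ℂ (Fin k)) (t t' r r' : ℝ) (hP : ‖(siegel z t r).1‖ ^ 2 <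
    (siegel z t r).2.im) (hQ : ‖(siegel z' t' r').1‖ ^ 2 < (siegel z' t' r').2.im),
    0 < r → 0 < r' →
    Real.log (((‖z - z'‖ ^ 2 + r + r') ^ 2 + (t - t' + 2 * (∑ i, z i * conj (z' i)).im) ^ 2)
      / (4 * (r * r'))) ≤ dComplex ⟨siegel z t r, hP⟩ ⟨siegel z' t' r', hQ⟩ ∧
    dComplex ⟨siegel z t r, hP⟩ ⟨siegel z' t' r', hQ⟩ ≤
      Real.log (((‖z - z'‖ ^ 2 + r + r') ^ 2 + (t - t' + 2 * (∑ i, z i * conj (z' i)).im) ^ 2)
      / (r * r')) ∧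
    0 ≤ dComplex ⟨siegel z t r, hP⟩ ⟨siegel z' t' r', hQ⟩

/-- The quantities which control the map: `D` is the squared distance of the parameters
`(s, t), (s', t')` in `R^(k+1)`, `Z` the squared distance of the points of `C^k`, `W` the vertical
defect, `G` the distance in the flat factor. -/
def UPPStmt : Prop :=
  ∀ (k : ℕ) (C : ℝ) (h : ℝ → ℂ) (T : ℝ → ℝ) (g : ℝ → ℝ → ℂ), 1 ≤ C →
    (∀ s s' r r' : ℝ, 0 < r → 0 < r' →
      ‖h s - h s'‖ ^ 2 ≤ C * |s - s'| ∧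
      |T s - T s' + 2 * (h s * conj (h s')).im| ≤ C * |s - s'| ∧
      ‖g s r - g s' r'‖ ≤ C * (1 + |Real.log (r / r')| + Real.log (1 + |s - s'| / r)) ∧
      (‖h s - h s'‖ ^ 2 < r → |s - s'| ≤ C * r * Real.exp (C * ‖g s r - g s' r‖))) →
    ∃ A : ℝ, 1 ≤ A ∧ ∀ (s s' : Fin k → ℝ) (t t' r r' : ℝ), 0 < r → 0 < r' →
      (∑ i, ‖h (s i) - h (s' i)‖ ^ 2 + r + r') ^ 2 +
        ((t + ∑ i, T (s i)) - (t' + ∑ i, T (s' i)) + 2 * (∑ i, h (s i) * conj (h (s' i))).im) ^ 2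
        ≤ A * (∑ i, (s i - s' i) ^ 2 + (t - t') ^ 2 + r ^ 2 + r' ^ 2) ∧
      ∑ i, ‖g (s i) r - g (s' i) r'‖ ≤
        A * (1 + Real.log ((∑ i, (s i - s' i) ^ 2 + (t - t') ^ 2 + r ^ 2 + r' ^ 2) / (r * r')))

/-- UPP (120 lines), no hypotheses except those stated. First: `(sum a_i)^2 ≤ k sum a_i^2`. Second:
with `Q = (.. + r^2 + r'^2) / (r r') ≥ 2`: `|log (r/r')| ≤ log (r/r' + r'/r) ≤ log Q` and
`1 + |s_i - s_i'| / r ≤ (1 + a) ` with `a^2 = (s_i - s_i')^2 / r^2 ≤ Q * (r' / r) ≤ Q^2`. -/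
def UPPRow : Prop := UPPStmt

/-- LOW (200 lines), no hypotheses except those stated. Lower bound: the sum of the complex
distance (`log (N / (r r'))` up to a constant) and of the flat distance controls the real
distance. Let `rb = max (r, r', N^(1/2))` up to a factor 2 (so `‖h (s i) - h (s' i)‖^2 < rb` for
all `i`, `rb^2 ≤ 4 N`, `r, r' ≤ rb`; e.g. `rb = 2 sqrt N`, note `N ≥ (r + r')^2`). By the third
property (for `s = s'`) `‖g (s i) r - g (s i) rb‖ ≤ C (1 + log (rb / r))`, the same for `r'`, hence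
`‖g (s i) rb - g (s' i) rb‖ ≤ ‖g (s i) r - g (s' i) r'‖ + 2 C + C log (rb^2 / (r r'))`. The fourth
property at height `rb`: `|s i - s' i| ≤ C rb exp (C (..)) =: E` for all `i`. The vertical defect:
`|t - t'| ≤ |W| + sum |T .. + 2 Im ..| ≤ sqrt N + k C E`. So
`sum (s i - s' i)^2 + (t - t')^2 + r^2 + r'^2 ≤ A rb^2 exp (A G) (rb^2 / (r r'))^A`, and divide by
`r r'`; `rb^2 = 4 N`. -/
def LOWStmt : Prop :=
  ∀ (k : ℕ) (C : ℝ) (h : ℝ → ℂ) (T : ℝ → ℝ) (g : ℝ → ℝ → ℂ), 1 ≤ C →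
    (∀ s s' r r' : ℝ, 0 < r → 0 < r' →
      ‖h s - h s'‖ ^ 2 ≤ C * |s - s'| ∧
      |T s - T s' + 2 * (h s * conj (h s')).im| ≤ C * |s - s'| ∧
      ‖g s r - g s' r'‖ ≤ C * (1 + |Real.log (r / r')| + Real.log (1 + |s - s'| / r)) ∧
      (‖h s - h s'‖ ^ 2 < r → |s - s'| ≤ C * r * Real.exp (C * ‖g s r - g s' r‖))) →
    ∃ A : ℝ, 1 ≤ A ∧ ∀ (s s' : Fin k → ℝ) (t t' r r' : ℝ), 0 < r → 0 < r' →
      Real.log ((∑ i, (s i - s' i) ^ 2 + (t - t') ^ 2 + r ^ 2 + r' ^ 2) / (r * r')) ≤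
        A * (1 + Real.log (((∑ i, ‖h (s i) - h (s' i)‖ ^ 2 + r + r') ^ 2 +
        ((t + ∑ i, T (s i)) - (t' + ∑ i, T (s' i)) + 2 * (∑ i, h (s i) * conj (h (s' i))).im) ^ 2)
          / (r * r')) + ∑ i, ‖g (s i) r - g (s' i) r'‖)

/-- The main theorem: for every `k ≥ 1` real hyperbolic space `H^(k+2)` embeds quasi-isometrically
in `CH^(k+1) × R^(2k)`. -/
def MAINStmt : Prop :=
  ∀ k : ℕ, 1 ≤ k → ∃ (L C : ℝ) (F : HReal (k + 1) → HComplex k × EuclideanSpace ℝ (Fin k × Fin 2)),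
    1 ≤ L ∧ 0 ≤ C ∧ ∀ p q : HReal (k + 1),
      L⁻¹ * dReal p q - C ≤ dProd (F p) (F q) ∧ dProd (F p) (F q) ≤ L * dReal p q + C

/-- FIN (200 lines): uses GLOStmt DRE DCO UPP LOW.
`F (x, r) = (siegel (h (x 0), .., h (x (k-1))) (x k + sum T (x i)) r, (Re, Im of g (x i) r))`
(`Fin.sum_univ_castSucc` for `‖x - x'‖^2`, `‖u‖ = sqrt (sum (re^2 + im^2))` is between
`(sum_i ‖g_i‖) / k` and `sum_i ‖g_i‖`, `sqrt (a^2 + b^2) ≤ a + b`, `≥ (a + b) / 2`). -/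
def FINRow : Prop := GLOStmt → MAINStmt

end Pool.Agent.QEP
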